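import Pool.Agent.helper91.HZF.Spec

set_option autoImplicit false

namespace Pool.Agent.HZF

open Finset Pool.Agent.helper38.Neg Pool.Agent.helper55.NT Pool.Agent.LN

/-- the function `f` of the input is available in the circuit `C` -/
def FIU_Av {n s : ℕ} (C : Circuit n s) (f : (Fin n → Bool) → Bool) : Prop := ∃ j, ∀ x, C.val x j = f x

theorem FIU_old {n s : ℕ} {C : Circuit n s} {f : (Fin n → Bool) → Bool} (g : Gate (n + s)) (h : FIU_Av C f) :
    FIU_Av (Circuit.snoc C g) f := by
  obtain ⟨k, hk⟩ := h
  refine ⟨Fin.castSucc k, fun x => ?_⟩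
  rw [← hk x]
  simp [Circuit.val]

theorem FIU_new {n s : ℕ} {C : Circuit n s} {f : (Fin n → Bool) → Bool} (g : Gate (n + s))
    (h : ∀ x, g.eval (C.val x) = f x) : FIU_Av (Circuit.snoc C g) f := by
  refine ⟨Fin.last (n + s), fun x => ?_⟩
  rw [← h x]
  simp [Circuit.val]

/-- the first `n + 1` gates -/
theorem FIU_start (n u : ℕ) : ∀ m ≤ n, ∃ C : Circuit n (m + 1), FreeOf u C ∧ (∀ i, FIU_Av C fun x => x i) ∧
    ∀ i : Fin n, (i : ℕ) < m → FIU_Av C fun x => if (i : ℕ) < u then true else !(x i) := by
  intro m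
  induction m with
  | zero =>
    intro _
    refine ⟨Circuit.snoc Circuit.nil (Gate.const true), fun x y _ => rfl, fun i => FIU_old _ ⟨i, fun x => rfl⟩, ?_⟩
    intro i hi
    omega
  | succ m ih =>
    intro hm
    obtain ⟨C, h1, h2, h3⟩ := ih (by omega)
    by_cases hu : m < u
    · refine ⟨Circuit.snoc C (Gate.const true), fun x y h => h1 x y h, fun i => FIU_old _ (h2 i), ?_⟩
      intro i hi
      by_cases him : (i : ℕ) < m
      · exact FIU_old _ (h3 i him)
      · refine FIU_new _ fun x => ?_
        rw [if_pos (by omega)]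
        rfl
    · obtain ⟨j, hj⟩ := h2 ⟨m, by omega⟩
      refine ⟨Circuit.snoc C (Gate.not j), ?_, fun i => FIU_old _ (h2 i), ?_⟩
      · intro x y h
        change C.notVals x ++ [!(C.val x j)] = C.notVals y ++ [!(C.val y j)]
        have e := h ⟨m, by omega⟩ (by simpa using hu)
        have e2 : C.val x j = C.val y j := (hj x).trans (e.trans (hj y).symm)
        rw [h1 x y h, e2]
      · intro i hi
        by_cases him : (i : ℕ) < m
        · exact FIU_old _ (h3 i him)
        · refine FIU_new _ fun x => ?_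
          have e : i = ⟨m, by omega⟩ := Fin.ext (by simp only; omega)
          rw [if_neg (by omega), e]
          change (!(C.val x j)) = _
          rw [hj x]

theorem FIU : FIU_stmt := by
  intro n u L hL
  have key : ∀ (L : List (Fn (n + n))) (r : ℕ), SL L r → r = 0 →
      ∃ C : Circuit n (n + 1 + L.length), FreeOf u C ∧ ∀ f, Op L f →
        FIU_Av C fun x => f (Fin.append x fun i => if (i : ℕ) < u then true else !(x i)) := by
    intro L r h
    have step : ∀ (L : List (Fn (n + n))) (C : Circuit n (n + 1 + L.length)) (F : Fn (n + n)) (g : Gate (n + (n + 1 + L.length))),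
        (∀ f, Op L f → FIU_Av C fun x => f (Fin.append x fun i => if (i : ℕ) < u then true else !(x i))) →
        (∀ x, g.eval (C.val x) = F (Fin.append x fun i => if (i : ℕ) < u then true else !(x i))) →
        ∀ f, Op (F :: L) f → FIU_Av (Circuit.snoc C g)
          fun x => f (Fin.append x fun i => if (i : ℕ) < u then true else !(x i)) := by
      intro L C F g h1 h2 f hf
      rcases hf with hf | hf
      · rcases List.mem_cons.1 hf with rfl | hf
        · exact FIU_new _ h2
        · exact FIU_old _ (h1 f (Or.inl hf))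
      · exact FIU_old _ (h1 f (Or.inr hf))
    induction h with
    | nil =>
      intro _
      obtain ⟨C, h1, h2, h3⟩ := FIU_start n u n le_rfl
      refine ⟨C, h1, ?_⟩
      rintro f (hf | ⟨i, rfl⟩)
      · simp at hf
      · refine Fin.addCases (fun i => ?_) (fun i => ?_) i
        · obtain ⟨j, hj⟩ := h2 i
          exact ⟨j, fun x => (hj x).trans (by simp only [Fin.append_left])⟩
        · obtain ⟨j, hj⟩ := h3 i i.2
          exact ⟨j, fun x => (hj x).trans (by simp only [Fin.append_right])⟩
    | @const L r b _ ih =>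
      intro h0
      obtain ⟨C, h1, h2⟩ := ih h0
      exact ⟨Circuit.snoc C (Gate.const b), fun x y h => h1 x y h, step L C _ _ h2 fun x => rfl⟩
    | @and L r a b _ ha hb ih =>
      intro h0
      obtain ⟨C, h1, h2⟩ := ih h0
      obtain ⟨i, hi⟩ := h2 a ha
      obtain ⟨j, hj⟩ := h2 b hb
      exact ⟨Circuit.snoc C (Gate.and i j), fun x y h => h1 x y h, step L C _ _ h2 fun x => by simp [Gate.eval, hi, hj]⟩
    | @or L r a b _ ha hb ih =>
      intro h0
      obtain ⟨C, h1, h2⟩ := ih h0
      obtain ⟨i, hi⟩ := h2 a ha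
      obtain ⟨j, hj⟩ := h2 b hb
      exact ⟨Circuit.snoc C (Gate.or i j), fun x y h => h1 x y h, step L C _ _ h2 fun x => by simp [Gate.eval, hi, hj]⟩
    | @not L r a _ ha ih =>
      intro h0
      omega
  obtain ⟨C, h1, h2⟩ := key L 0 hL rfl
  exact ⟨C, h1, h2⟩

end Pool.Agent.HZF
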