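import Pool.Agent.helper91.HZF.Spec

set_option autoImplicit false

namespace Pool.Agent.HZF

open Finset Pool.Agent.helper38.Neg Pool.Agent.helper55.NT Pool.Agent.LN

theorem GCO (h : STC_stmt) : GCO_stmt := by
  intro n s B m C o k hh χ d
  induction d with
  | zero =>
    intro σ
    have h1 : Rel (∅ : Set (Fn (n + n))) 1 0 {fun _ => true} := Rel.const ∅ true
    refine h1.mono le_rfl ?_ ?_ le_rfl
    · intro f hf
      rw [Set.mem_singleton_iff] at hf ⊢
      rw [hf]
      rfl
    · rw [pow_zero, one_mul]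
      omega
  | succ d ih =>
    intro σ
    set T := (4 * (B + 1) ^ 2) ^ k * (2 * s + 2 * n * (6 * n + 2 * m + 10) + 8) with hT
    have h1 := Rel.biUnion (F := (∅ : Set (Fn (n + n)))) (m := (B * m + 1) ^ d * (T + 1)) (Finset.univ : Finset (Fin B × Fin m))
      (fun p => {fun y => G C o k hh χ d (Function.update σ p.1 (some p.2)) (rv y)}) (fun p _ => ih _)
    have h2 := h n s B m C o k hh χ σ (fun b x y => G C o k hh χ d (Function.update σ b (some x)) (rv y))
    have h3 : Rel (∅ ∪ ⋃ p ∈ (Finset.univ : Finset (Fin B × Fin m)),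
        {fun y => G C o k hh χ d (Function.update σ p.1 (some p.2)) (rv y)}) T 0
        {fun y => G C o k hh χ (d + 1) σ (rv y)} := by
      refine h2.mono ?_ ?_ le_rfl le_rfl
      · rintro f ⟨p, rfl⟩
        refine Or.inr ?_
        simp only [Set.mem_iUnion, exists_prop, Set.mem_singleton_iff]
        exact ⟨p, Finset.mem_univ _, rfl⟩
      · intro f hf
        rw [Set.mem_singleton_iff] at hf ⊢
        rw [hf]
        rfl
    refine (h1.trans' h3).mono le_rfl le_rfl ?_ le_rfl
    rw [Finset.card_univ, Fintype.card_prod, Fintype.card_fin, Fintype.card_fin, pow_succ]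
    have h4 : T ≤ (B * m + 1) ^ d * (T + 1) := by
      have : 1 ≤ (B * m + 1) ^ d := Nat.one_le_pow _ _ (by omega)
      nlinarith
    nlinarith

end Pool.Agent.HZF
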