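import Pool.Agent.helper91.HZF.Spec

set_option autoImplicit false

namespace Pool.Agent.HZF

open Finset Pool.Agent.helper38.Neg Pool.Agent.helper55.NT Pool.Agent.LN

theorem V3S : V3S_stmt := by
  intro n s C x
  induction C with
  | nil => intro j; rfl
  | snoc C g ih =>
    intro j
    refine Fin.lastCases ?_ (fun j => ?_) j
    · cases g with
      | const b => simp [val3, Circuit.val, eval3, Gate.eval]
      | and i j => cases h1 : C.val x i <;> cases h2 : C.val x j <;> simp [val3, Circuit.val, eval3, Gate.eval, ih, and3, h1, h2]
      | or i j => cases h1 : C.val x i <;> cases h2 : C.val x j <;> simp [val3, Circuit.val, eval3, Gate.eval, ih, or3, h1, h2]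
      | not i => simp [val3, Circuit.val, eval3, Gate.eval, ih, not3]
    · simp [val3, Circuit.val, ih]

end Pool.Agent.HZF
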